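import Pool.Agent.W_9986fc_h24.Unf
import Pool.Agent.W_9986fc_h15.Stokes
import Pool.Agent.W_9986fc_h15.SurfB
import Pool.Agent.W_9986fc_h15.PrimB

/-!
The Stokes theorem for top powers of closed 2-forms on closed manifolds `E / Γ`.
-/

set_option autoImplicit false
set_option maxSynthPendingDepth 3

open scoped ContDiff
open Pool.Agent.W_9986fc_h15 MeasureTheory
open Pool.Agent.W_9986fc_h15.StokesAux (continuous_mix mix_wedge_linear wedge_bilinearComp)

namespace Pool.Agent.W_9986fc_h24

variable {E : Type*} [NormedAddCommGroup E] [NormedSpace ℝ E] [FiniteDimensional ℝ E]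
  {Γ : Type*} [Group Γ] [MulAction Γ E] {n : ℕ}

omit [FiniteDimensional ℝ E] in
/-- Sums of invariant forms. -/
theorem Form2.add {a c : E → E →L[ℝ] E →L[ℝ] ℝ} (ha : Form2 Γ a) (hc : Form2 Γ c) :
    Form2 Γ (fun x => a x + c x) := by
  refine { smooth := ha.smooth.add hc.smooth, alt := ?_, invariant := ?_ }
  · intro x u
    have h1 := ha.alt x u
    have h2 := hc.alt x u
    simp only [_root_.add_apply]
    rw [h1, h2, add_zero]
  · intro g x
    have h1 := ha.invariant g x
    have h2 := hc.invariant g x
    refine ContinuousLinearMap.ext fun u => ContinuousLinearMap.ext fun w => ?_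
    have h3 := congrArg (fun q => q u w) h1
    have h4 := congrArg (fun q => q u w) h2
    simp only [pull2, ContinuousLinearMap.bilinearComp_apply] at h3 h4
    simp only [pull2, ContinuousLinearMap.bilinearComp_apply, _root_.add_apply]
    rw [h3, h4]

omit [FiniteDimensional ℝ E] in
/-- Scalar multiples of invariant forms. -/
theorem Form2.smul {a : E → E →L[ℝ] E →L[ℝ] ℝ} (ha : Form2 Γ a) (t : ℝ) :
    Form2 Γ (fun x => t • a x) := by
  refine { smooth := ha.smooth.const_smul t, alt := ?_, invariant := ?_ }
  · intro x u
    have h1 := ha.alt x u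
    simp only [_root_.smul_apply]
    rw [h1, smul_zero]
  · intro g x
    have h1 := ha.invariant g x
    refine ContinuousLinearMap.ext fun u => ContinuousLinearMap.ext fun w => ?_
    have h3 := congrArg (fun q => q u w) h1
    simp only [pull2, ContinuousLinearMap.bilinearComp_apply] at h3
    simp only [pull2, ContinuousLinearMap.bilinearComp_apply, _root_.smul_apply]
    rw [h3]

omit [FiniteDimensional ℝ E] in
/-- Sums of closed forms. -/
theorem closed_add {a c : E → E →L[ℝ] E →L[ℝ] ℝ} (ha : IsForm a) (hc : IsForm c)
    (ha' : Closed a) (hc' : Closed c) : Closed (fun x => a x + c x) := by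
  intro x u v w
  have h1 : fderiv ℝ (fun x => a x + c x) x = fderiv ℝ a x + fderiv ℝ c x := by
    apply fderiv_fun_add
    · exact (ha.smooth.differentiable (by simp)) x
    · exact (hc.smooth.differentiable (by simp)) x
  rw [h1]
  have h2 := ha' x u v w
  have h3 := hc' x u v w
  simp only [_root_.add_apply]
  linarith

omit [FiniteDimensional ℝ E] in
theorem closed_smul {a : E → E →L[ℝ] E →L[ℝ] ℝ} (ha : IsForm a)
    (ha' : Closed a) (t : ℝ) : Closed (fun x => t • a x) := by
  intro x u v w
  have h1 : fderiv ℝ (fun x => t • a x) x = t • fderiv ℝ a x := by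
    apply fderiv_fun_const_smul
    exact (ha.smooth.differentiable (by simp)) x
  rw [h1]
  have h2 := ha' x u v w
  simp only [_root_.smul_apply, smul_eq_mul]
  linear_combination t * h2

omit [FiniteDimensional ℝ E] in
/-- The exterior derivative of an invariant form is invariant: `d (φ^* η) = φ^* (d η)` by the chain
rule and the symmetry of the second derivative of `φ = (g • ·)`. -/
theorem Form1.d1_form (hB : IsCover E Γ) {η : E → E →L[ℝ] ℝ} (hη : Form1 Γ η) :
    Form2 Γ (d1 η) := by
  have hf := isForm_d1 hη.smooth
  refine { smooth := hf.smooth, alt := hf.alt, invariant := ?_ }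
  intro g x
  rw [← d1_pull1_gen _ (hB.smooth g) η hη.smooth]
  congr 1
  funext y
  exact hη.invariant g y

section Meas

variable [MeasureSpace E] [BorelSpace E] [Measure.IsAddHaarMeasure (volume : Measure E)]

/-- The integral over `E / Γ` of a wedge product of closed 2-forms, one of which is exact, is zero. -/
theorem integral_mix_exact (hB : IsCover E Γ) (hO : Orient E Γ) {χ : E → ℝ} (hχ : Part Γ χ)
    (B : Module.Basis (Fin n × Fin 2) ℝ E) (i : Fin n) (η : E → E →L[ℝ] ℝ) (hη : Form1 Γ η)
    (a : Fin n → E → E →L[ℝ] E →L[ℝ] ℝ) (ha : ∀ j, j ≠ i → Form2 Γ (a j))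
    (hc : ∀ j, j ≠ i → Closed (a j)) :
    ∫ x, χ x * mix B (fun j => if j = i then d1 η x else a j x) = 0 := by
  have hd1 : IsForm (d1 η) := isForm_d1 hη.smooth
  have hK : IsCompact (tsupport χ) := hχ.compact
  have hχK : ∀ z, χ z ≠ 0 → z ∈ tsupport χ := fun z hz => subset_tsupport χ hz
  set F : E → ℝ := fun x => mix B (fun j => if j = i then d1 η x else a j x) with hF
  set Ψ : E → ℝ := fun x =>
    mix B (fun j => if j = i then wedge (fderiv ℝ χ x) (η x) else a j x) with hΨ
  have hid := sum_deriv B i χ η a hχ.smooth hη.smooth (fun j hj => (ha j hj).toIsForm) hc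
  have hFc : Continuous F := by
    refine continuous_mix B (q := fun j x => if j = i then d1 η x else a j x) fun j => ?_
    by_cases hj : j = i
    · simp only [if_pos hj]
      exact hd1.smooth.continuous
    · simp only [if_neg hj]
      exact (ha j hj).smooth.continuous
  have hdχ : Continuous (fderiv ℝ χ) := hχ.smooth.continuous_fderiv (by simp)
  have hΨc : Continuous Ψ := by
    refine continuous_mix B (q := fun j x => if j = i then wedge (fderiv ℝ χ x) (η x) else a j x)
      fun j => ?_
    by_cases hj : j = i
    · simp only [if_pos hj]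
      unfold wedge
      have hηc : Continuous η := hη.smooth.continuous
      exact (isBoundedBilinearMap_smulRight.continuous.comp (hdχ.prodMk hηc)).sub
        (isBoundedBilinearMap_smulRight.continuous.comp (hηc.prodMk hdχ))
    · simp only [if_neg hj]
      exact (ha j hj).smooth.continuous
  obtain hT := fun x => mix_wedge_linear B i (η x) (fun j => a j x)
  have hdχs : ∀ x, x ∉ tsupport χ → fderiv ℝ χ x = 0 := by
    intro x hx
    have hev : χ =ᶠ[nhds x] fun _ => 0 := by
      filter_upwards [(isClosed_tsupport χ).isOpen_compl.mem_nhds hx] with y hy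
      exact image_eq_zero_of_notMem_tsupport hy
    rw [hev.fderiv_eq]
    exact fderiv_const_apply _
  have hΨs : HasCompactSupport Ψ := by
    refine HasCompactSupport.intro hK fun x hx => ?_
    obtain ⟨T, hT⟩ := hT x
    simp only [hΨ]
    rw [hdχs x hx, ← hT 0, map_zero]
  have hhs : ∀ σ, ContDiff ℝ ∞ (hfun B i χ η a σ) := by
    intro σ
    unfold hfun
    refine (hχ.smooth.mul (hη.smooth.clm_apply contDiff_const)).mul ?_
    refine contDiff_prod fun j hj => ?_
    exact (((ha j (Finset.ne_of_mem_erase hj)).smooth).clm_apply contDiff_const).clm_apply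
      contDiff_const
  have hhK : ∀ σ, HasCompactSupport (hfun B i χ η a σ) := by
    intro σ
    refine HasCompactSupport.intro hK fun x hx => ?_
    unfold hfun
    rw [image_eq_zero_of_notMem_tsupport hx]
    ring
  have hhd : ∀ σ u, Continuous fun x => fderiv ℝ (hfun B i χ η a σ) x u := fun σ u =>
    ((hhs σ).continuous_fderiv (by simp)).clm_apply continuous_const
  have hint : ∀ σ, ∫ x, fderiv ℝ (hfun B i χ η a σ) x (B (σ (i, 0))) = 0 :=
    fun σ => integral_fderiv_eq_zero _ (hhs σ) (hhK σ) _
  have hbase : ∀ x, χ x * F x =
      2 * ∑ σ : Equiv.Perm (Fin n × Fin 2), ((Equiv.Perm.sign σ : ℤ) : ℝ) *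
        fderiv ℝ (hfun B i χ η a σ) x (B (σ (i, 0))) - Ψ x := by
    intro x
    have := hid x
    simp only [hΨ, hF]
    linarith
  have hInt : ∀ σ, Integrable (fun x => fderiv ℝ (hfun B i χ η a σ) x (B (σ (i, 0)))) :=
    fun σ => (hhd σ _).integrable_of_hasCompactSupport ((hhK σ).fderiv_apply (𝕜 := ℝ) _)
  have hΨint : Integrable Ψ := hΨc.integrable_of_hasCompactSupport hΨs
  have hgoal : (fun x => χ x * mix B (fun j => if j = i then d1 η x else a j x)) = fun x =>
      2 * ∑ σ : Equiv.Perm (Fin n × Fin 2), ((Equiv.Perm.sign σ : ℤ) : ℝ) *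
        fderiv ℝ (hfun B i χ η a σ) x (B (σ (i, 0))) - Ψ x := funext hbase
  rw [hgoal]
  rw [integral_sub ?_ hΨint, integral_const_mul, integral_finsetSum]
  · simp only [integral_const_mul, hint, mul_zero, Finset.sum_const_zero, zero_sub, neg_eq_zero]
    rw [unfold hB hO hχ Ψ hΨc hΨs]
    -- the transforms of `Ψ`
    have htr : ∀ (g : Γ) x, (fderiv ℝ (fun x : E => g • x) x).det * Ψ (g • x) =
        mix B (fun j => if j = i then
          wedge (fderiv ℝ (fun x : E => χ (g • x)) x) (η x) else a j x) := by
      intro g x
      simp only [hΨ]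
      rw [← mix_bilinearComp]
      congr 1
      funext j
      by_cases hj : j = i
      · simp only [if_pos hj]
        rw [wedge_bilinearComp]
        have h1 : (η (g • x)).comp (fderiv ℝ (fun x : E => g • x) x) = η x := hη.invariant g x
        rw [h1]
        have h2 : (fderiv ℝ χ (g • x)).comp (fderiv ℝ (fun x : E => g • x) x) =
            fderiv ℝ (fun x : E => χ (g • x)) x := by
          have h3 : (fun x : E => χ (g • x)) = χ ∘ (fun x : E => g • x) := rfl
          rw [h3, fderiv_comp]
          · exact (hχ.smooth.differentiable (by simp)) _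
          · exact ((hB.smooth g).differentiable (by simp)) _
        rw [h2]
      · simp only [if_neg hj]
        exact (ha j hj).invariant g x
    have hz : ∀ x, ∑ᶠ g : Γ, (fderiv ℝ (fun x : E => g • x) x).det * Ψ (g • x) = 0 := by
      intro x
      obtain ⟨T, hT⟩ := hT x
      have h1 : ∀ g : Γ, (fderiv ℝ (fun x : E => g • x) x).det * Ψ (g • x) =
          T (fderiv ℝ (fun x : E => χ (g • x)) x) := by
        intro g
        rw [htr, hT]
      simp only [h1]
      have hsd := (GSum_aux1 (Γ := Γ) hχ.compact).sup_fderiv hB continuous_id'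
      have h2 := hsd.clm hB T x
      rw [← h2, hχ.fderiv_sum hB x, map_zero]
    simp only [hz]
    simp
  · intro σ _
    exact (hInt σ).const_mul _
  · refine Integrable.const_mul ?_ _
    exact integrable_finsetSum _ fun σ _ => (hInt σ).const_mul _

/-- The integral of the top power of a closed form depends only on the cohomology class. -/
theorem integral_top_add (hB : IsCover E Γ) (hO : Orient E Γ) {χ : E → ℝ} (hχ : Part Γ χ)
    (B : Module.Basis (Fin n × Fin 2) ℝ E) (a : E → E →L[ℝ] E →L[ℝ] ℝ) (ha : Form2 Γ a)
    (hc : Closed a) (η : E → E →L[ℝ] ℝ) (hη : Form1 Γ η) :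
    ∫ x, χ x * top B (a x + d1 η x) = ∫ x, χ x * top B (a x) := by
  have hd := hη.d1_form hB
  have hdc : Closed (d1 η) := closed_d1 hη.smooth
  have hadd : Form2 Γ (fun x => a x + d1 η x) := ha.add hd
  have haddc : Closed (fun x => a x + d1 η x) := closed_add ha.toIsForm hd.toIsForm hc hdc
  have hcq : ∀ (q : Fin n → E → E →L[ℝ] E →L[ℝ] ℝ), (∀ j, Continuous (q j)) →
      Integrable fun x => χ x * mix B (fun j => q j x) := by
    intro q hq
    refine (hχ.smooth.continuous.mul (continuous_mix B hq)).integrable_of_hasCompactSupport ?_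
    exact hχ.compact.mul_right
  rw [← sub_eq_zero, ← integral_sub]
  · have h1 : ∀ x, χ x * top B (a x + d1 η x) -
        χ x * top B (a x) = ∑ i : Fin n, χ x * mix B (fun j =>
          if j = i then d1 η x else if j < i then a x + d1 η x else a x) := by
      intro x
      rw [← mul_sub, top_add_sub, Finset.mul_sum]
    simp only [h1]
    rw [integral_finsetSum]
    · refine Finset.sum_eq_zero fun i _ => ?_
      refine integral_mix_exact hB hO hχ B i η hη
        (fun j x => if j < i then a x + d1 η x else a x) ?_ ?_
      · intro j _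
        by_cases hj' : j < i
        · simp only [if_pos hj']
          exact hadd
        · simp only [if_neg hj']
          exact ha
      · intro j _
        by_cases hj' : j < i
        · simp only [if_pos hj']
          exact haddc
        · simp only [if_neg hj']
          exact hc
    · intro i _
      refine hcq (fun j x => if j = i then d1 η x else if j < i then a x + d1 η x else a x) ?_
      intro j
      by_cases hj : j = i
      · simp only [if_pos hj]
        exact hd.smooth.continuous
      · simp only [if_neg hj]
        by_cases hj' : j < i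
        · simp only [if_pos hj']
          exact hadd.smooth.continuous
        · simp only [if_neg hj']
          exact ha.smooth.continuous
  · exact hcq (fun _ x => a x + d1 η x) fun _ => hadd.smooth.continuous
  · exact hcq (fun _ x => a x) fun _ => ha.smooth.continuous

omit [MeasureSpace E] [BorelSpace E] [Measure.IsAddHaarMeasure (volume : Measure E)] in
/-- The top power of an invariant form is an invariant density. -/
theorem top_inv (B : Module.Basis (Fin n × Fin 2) ℝ E) (a : E → E →L[ℝ] E →L[ℝ] ℝ)
    (ha : Form2 Γ a) (g : Γ) (x : E) :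
    (fderiv ℝ (fun x : E => g • x) x).det * top B (a (g • x)) = top B (a x) := by
  rw [← top_bilinearComp]
  congr 1
  exact ha.invariant g x

end Meas

end Pool.Agent.W_9986fc_h24
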