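import Pool.Agent.W_9986fc_h24.Nice
import Pool.Agent.W_9986fc_h24.Stk
import Pool.Agent.W_9986fc_h24.Prod.Split

/-!
Conversions between the elementary definitions (`Nice`) and the working definitions.
-/

set_option autoImplicit false
set_option maxSynthPendingDepth 3

open scoped ContDiff
open Pool.Agent.W_9986fc_h15 MeasureTheory

namespace Pool.Agent.W_9986fc_h24.Nice

variable {E : Type} [NormedAddCommGroup E] [NormedSpace ℝ E]
  {Γ : Type} [Group Γ] [MulAction Γ E] {n : ℕ}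

/-- A continuous bilinear form as a bilinear form. -/
def toLin (q : E →L[ℝ] E →L[ℝ] ℝ) : E →ₗ[ℝ] E →ₗ[ℝ] ℝ :=
  (ContinuousLinearMap.coeLM ℝ).comp (q : E →ₗ[ℝ] E →L[ℝ] ℝ)

theorem toLin_apply (q : E →L[ℝ] E →L[ℝ] ℝ) (u v : E) : toLin q u v = q u v := rfl

theorem topPower_toLin (e : Fin n × Fin 2 → E) (q : E →L[ℝ] E →L[ℝ] ℝ) :
    topPower e (toLin q) = top e q := rfl

theorem isCover (h : ClosedOriented E Γ) : IsCover E Γ := ⟨h.smooth, h.proper, h.cocompact⟩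

theorem orient (h : ClosedOriented E Γ) : Orient E Γ := h.oriented

theorem part {χ : E → ℝ} (h : PartitionOfUnity Γ χ) : Part Γ χ := ⟨h.smooth, h.compact, h.sum⟩

theorem of_part {χ : E → ℝ} (h : Part Γ χ) : PartitionOfUnity Γ χ := ⟨h.smooth, h.compact, h.sum⟩

variable [FiniteDimensional ℝ E]

/-- A bilinear form on a finite dimensional space as a continuous bilinear form. -/
noncomputable def toC (q : E →ₗ[ℝ] E →ₗ[ℝ] ℝ) : E →L[ℝ] E →L[ℝ] ℝ :=
  LinearMap.toContinuousLinearMap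
    ((LinearMap.toContinuousLinearMap : (E →ₗ[ℝ] ℝ) ≃ₗ[ℝ] (E →L[ℝ] ℝ)).toLinearMap.comp q)

theorem toC_apply (q : E →ₗ[ℝ] E →ₗ[ℝ] ℝ) (u v : E) : toC q u v = q u v := rfl

theorem top_toC (e : Fin n × Fin 2 → E) (q : E →ₗ[ℝ] E →ₗ[ℝ] ℝ) :
    top e (toC q) = topPower e q := rfl

theorem contDiff_toC {α : E → E →ₗ[ℝ] E →ₗ[ℝ] ℝ} (h : ∀ u v, ContDiff ℝ ∞ (fun x => α x u v)) :
    ContDiff ℝ ∞ (fun x => toC (α x)) := by
  rw [contDiff_clm_apply_iff]
  intro u
  rw [contDiff_clm_apply_iff]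
  intro v
  exact h u v

omit [FiniteDimensional ℝ E] in
theorem fderiv_apply₂ {β : E → E →L[ℝ] E →L[ℝ] ℝ} (h : ContDiff ℝ ∞ β) (x u v w : E) :
    fderiv ℝ (fun y => β y v w) x u = fderiv ℝ β x u v w := by
  have h1 : HasFDerivAt β (fderiv ℝ β x) x := ((h.differentiable (by simp)) x).hasFDerivAt
  have h2 := (ContinuousLinearMap.apply ℝ (E →L[ℝ] ℝ) v).hasFDerivAt.comp x h1
  have h3 := (ContinuousLinearMap.apply ℝ ℝ w).hasFDerivAt.comp x h2
  have h4 : (fun y => β y v w) = (ContinuousLinearMap.apply ℝ ℝ w) ∘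
      (ContinuousLinearMap.apply ℝ (E →L[ℝ] ℝ) v) ∘ β := rfl
  rw [h4, h3.fderiv]
  rfl

theorem form2_toC {α : E → E →ₗ[ℝ] E →ₗ[ℝ] ℝ} (h : ClosedTwoForm Γ α) :
    Form2 Γ (fun x => toC (α x)) := by
  refine { smooth := contDiff_toC h.smooth, alt := fun x u => h.alt x u, invariant := ?_ }
  intro g x
  refine ContinuousLinearMap.ext fun u => ContinuousLinearMap.ext fun v => ?_
  exact h.invariant g x u v

theorem closed_toC {α : E → E →ₗ[ℝ] E →ₗ[ℝ] ℝ} (h : ClosedTwoForm Γ α) :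
    Closed (fun x => toC (α x)) := by
  intro x u v w
  have hs := contDiff_toC h.smooth
  have h1 := h.closed x u v w
  rw [← fderiv_apply₂ hs, ← fderiv_apply₂ hs, ← fderiv_apply₂ hs]
  exact h1

omit [FiniteDimensional ℝ E] in
theorem closedTwoForm_toLin {β : E → E →L[ℝ] E →L[ℝ] ℝ} (h : Form2 Γ β) (hc : Closed β) :
    ClosedTwoForm Γ (fun x => toLin (β x)) where
  smooth u v := (h.smooth.clm_apply contDiff_const).clm_apply contDiff_const
  alt x u := h.alt x u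
  invariant g x u v := by
    have h1 := congrArg (fun q => q u v) (h.invariant g x)
    simpa [pull2, toLin_apply] using h1
  closed x u v w := by
    have h1 := hc x u v w
    rw [← fderiv_apply₂ h.smooth, ← fderiv_apply₂ h.smooth, ← fderiv_apply₂ h.smooth] at h1
    exact h1

variable [MeasureSpace E]

theorem csymp_iff (B : Module.Basis (Fin n × Fin 2) ℝ E) :
    CohomologicallySymplectic Γ B ↔ CSymp Γ B := by
  constructor
  · rintro ⟨χ, α, hχ, hα, hp⟩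
    exact ⟨χ, fun x => toC (α x), part hχ, form2_toC hα, closed_toC hα, hp⟩
  · rintro ⟨χ, β, hχ, hβ, hc, hp⟩
    exact ⟨χ, fun x => toLin (β x), of_part hχ, closedTwoForm_toLin hβ hc, hp⟩

omit [MeasureSpace E] in
theorem symp_iff (B : Module.Basis (Fin n × Fin 2) ℝ E) :
    HasSymplecticForm Γ B ↔ Symp Γ B := by
  constructor
  · rintro ⟨α, hα, hp⟩
    exact ⟨fun x => toC (α x), form2_toC hα, closed_toC hα, hp⟩
  · rintro ⟨β, hβ, hc, hp⟩
    exact ⟨fun x => toLin (β x), closedTwoForm_toLin hβ hc, hp⟩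

theorem weak_iff : CohomologicallySymplecticImpliesSymplectic E Γ ↔ Weak E Γ :=
  ⟨fun h n B hB => (symp_iff B).1 (h n B ((csymp_iff B).2 hB)),
    fun h n B hB => (symp_iff B).2 (h n B ((csymp_iff B).1 hB))⟩

omit [MeasureSpace E] in
theorem productOrientation_iff {E₂ : Type} [NormedAddCommGroup E₂] [NormedSpace ℝ E₂]
    [FiniteDimensional ℝ E₂] {m₁ m₂ : ℕ} (B : Module.Basis (Fin n × Fin 2) ℝ (E × E₂))
    (B₁ : Module.Basis (Fin m₁ × Fin 2) ℝ E) (B₂ : Module.Basis (Fin m₂ × Fin 2) ℝ E₂) :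
    ProductOrientation B B₁ B₂ ↔ 0 < top B (lift1 (J B₁) + lift2 (J B₂)) := by
  obtain ⟨c, hc0, hc1, hc⟩ := exists_split B B₁ B₂
  have hJ₁ : ∀ u, J B₁ u u = 0 := Split_J_alt B₁
  have hJ₂ : ∀ u, J B₂ u u = 0 := Split_J_alt B₂
  constructor
  · intro h
    have := h (toLin (J B₁)) (toLin (J B₂)) hJ₁ hJ₂ (top_J_pos B₁) (top_J_pos B₂)
    exact this
  · intro h q₁ q₂ h₁ h₂ p₁ p₂
    have hcp : 0 < c := by
      by_contra hn
      have : c * top B (lift1 (J B₁) + lift2 (J B₂)) ≤ 0 :=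
        mul_nonpos_of_nonpos_of_nonneg (not_lt.1 hn) h.le
      linarith
    have h3 := hc (toC q₁) (toC q₂) h₁ h₂
    have h4 : topPower B (q₁.compl₁₂ (LinearMap.fst ℝ E E₂) (LinearMap.fst ℝ E E₂) +
      q₂.compl₁₂ (LinearMap.snd ℝ E E₂) (LinearMap.snd ℝ E E₂)) =
      top B (lift1 (toC q₁) + lift2 (toC q₂)) := rfl
    rw [h4, h3]
    exact mul_pos (mul_pos hcp p₁) p₂

end Pool.Agent.W_9986fc_h24.Nice
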