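import Pool.Agent.W_9986fc_h15.Defs

/-!
Definitions for MP_9986fc_gt (helper24): closed manifolds `E / Γ`, where the group `Γ` acts on the
finite dimensional vector space `E` (properly discontinuously, cocompactly, preserving the
orientation).
-/

set_option autoImplicit false
set_option maxSynthPendingDepth 3

open scoped ContDiff
open Pool.Agent.W_9986fc_h15

namespace Pool.Agent.W_9986fc_h24

section Cover

variable (E : Type*) [NormedAddCommGroup E] [NormedSpace ℝ E]
  (Γ : Type*) [Group Γ] [MulAction Γ E]

/-- A smooth, properly discontinuous and cocompact action of `Γ` on `E`: the quotient is a closed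
orbifold with universal cover `E` (a closed manifold if the action is free). -/
structure IsCover : Prop where
  smooth : ∀ g : Γ, ContDiff ℝ ∞ (fun x : E => g • x)
  proper : ∀ K : Set E, IsCompact K → {g : Γ | ∃ x ∈ K, g • x ∈ K}.Finite
  cocompact : ∃ K : Set E, IsCompact K ∧ ∀ x, ∃ g : Γ, g • x ∈ K

/-- The action preserves the orientation. -/
def Orient : Prop := ∀ (g : Γ) (x : E), 0 < (fderiv ℝ (fun x : E => g • x) x).det

variable {E}

/-- A partition of unity: the integral over `E / Γ` of an invariant density `F` is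
`∫ x, χ x * F x`. -/
structure Part (χ : E → ℝ) : Prop where
  smooth : ContDiff ℝ ∞ χ
  compact : HasCompactSupport χ
  sum : ∀ x, ∑ᶠ g : Γ, χ (g • x) = 1

/-- Differential 2-forms on `E / Γ`. -/
structure Form2 (α : E → E →L[ℝ] E →L[ℝ] ℝ) : Prop extends IsForm α where
  invariant : ∀ (g : Γ) x, pull2 (fun x : E => g • x) α x = α x

/-- Differential 1-forms on `E / Γ`. -/
structure Form1 (η : E → E →L[ℝ] ℝ) : Prop where
  smooth : ContDiff ℝ ∞ η
  invariant : ∀ (g : Γ) x, pull1 (fun x : E => g • x) η x = η x

/-- The 1-form `η` is closed. -/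
def Closed1 (η : E → E →L[ℝ] ℝ) : Prop := ∀ x u w, fderiv ℝ η x u w = fderiv ℝ η x w u

variable [MeasureTheory.MeasureSpace E]

/-- `E / Γ` with the orientation of the ordered basis `B` of `E` is cohomologically symplectic: there
is a closed 2-form `α` whose top power has positive integral. -/
def CSymp {n : ℕ} (B : Module.Basis (Fin n × Fin 2) ℝ E) : Prop :=
  ∃ (χ : E → ℝ) (α : E → E →L[ℝ] E →L[ℝ] ℝ), Part Γ χ ∧ Form2 Γ α ∧ Closed α ∧
    0 < ∫ x, χ x * top B (α x)

/-- `E / Γ` with the orientation of the ordered basis `B` of `E` is symplectic. -/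
def Symp {n : ℕ} (B : Module.Basis (Fin n × Fin 2) ℝ E) : Prop :=
  ∃ α : E → E →L[ℝ] E →L[ℝ] ℝ, Form2 Γ α ∧ Closed α ∧ ∀ x, 0 < top B (α x)

variable (E)

/-- The conclusion of Q1 for `E / Γ`, with both orientations: if there is a closed 2-form `α` with
positive integral of the top power, then there is a symplectic form. -/
def Weak : Prop :=
  ∀ (n : ℕ) (B : Module.Basis (Fin n × Fin 2) ℝ E), CSymp Γ B → Symp Γ B

/-- Strong form: every closed 2-form `α` with positive integral of the top power is cohomologous to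
a symplectic form. -/
def Strong : Prop :=
  ∀ (n : ℕ) (B : Module.Basis (Fin n × Fin 2) ℝ E) (χ : E → ℝ) (α : E → E →L[ℝ] E →L[ℝ] ℝ),
    Part Γ χ → Form2 Γ α → Closed α → 0 < ∫ x, χ x * top B (α x) →
    ∃ η, Form1 Γ η ∧ ∀ x, 0 < top B (α x + d1 η x)

end Cover

end Pool.Agent.W_9986fc_h24
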