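import Pool.Agent.W_9986fc_h24.Conv
import Pool.Agent.W_9986fc_h24.Nil.MainN

/-!
# Bundles of nilmanifolds: definitions for the statement, and conversions
-/

set_option autoImplicit false
set_option maxSynthPendingDepth 3

open scoped ContDiff
open Pool.Agent.W_9986fc_h15 MeasureTheory

namespace Pool.Agent.W_9986fc_h24.Nice

section

variable {E : Type} [NormedAddCommGroup E] [NormedSpace ℝ E] (Γ : Type) [Group Γ] [MulAction Γ E]

/-- `η` is a differential 1-form on `E / Γ`. -/
structure OneForm (η : E → E →ₗ[ℝ] ℝ) : Prop where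
  smooth : ∀ u, ContDiff ℝ ∞ (fun x => η x u)
  invariant : ∀ (g : Γ) (x u : E), η (g • x) (fderiv ℝ (fun x : E => g • x) x u) = η x u

/-- `β = α + d η` for a differential 1-form `η` on `E / Γ`. -/
def Cohomologous (α β : E → E →ₗ[ℝ] E →ₗ[ℝ] ℝ) : Prop :=
  ∃ η : E → E →ₗ[ℝ] ℝ, OneForm Γ η ∧ ∀ x u v, β x u v =
    α x u v + (fderiv ℝ (fun y => η y v) x u - fderiv ℝ (fun y => η y u) x v)

/-- The class of the 2-form `α` on `E / Γ` contains a symplectic form which is compatible with the
orientation given by the ordered basis `B`. -/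
def ClassIsSymplectic {n : ℕ} (B : Module.Basis (Fin n × Fin 2) ℝ E)
    (α : E → E →ₗ[ℝ] E →ₗ[ℝ] ℝ) : Prop :=
  ∃ β : E → E →ₗ[ℝ] E →ₗ[ℝ] ℝ, ClosedTwoForm Γ β ∧ Cohomologous Γ α β ∧
    ∀ x, 0 < topPower B (β x)

variable (E) [MeasureSpace E]

/-- For both orientations of `E / Γ`: every class `a` with `a ^ n > 0` contains a symplectic form. -/
def EveryPositiveClassIsSymplectic : Prop :=
  ∀ (n : ℕ) (B : Module.Basis (Fin n × Fin 2) ℝ E) (χ : E → ℝ) (α : E → E →ₗ[ℝ] E →ₗ[ℝ] ℝ),
    PartitionOfUnity Γ χ → ClosedTwoForm Γ α → 0 < ∫ x, χ x * topPower B (α x) →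
    ClassIsSymplectic Γ B α

end

/-- The mean of the 2-form `α` over the fibre at the point `z` of the base: the matrix of the left
invariant 2-form on the nilpotent group which is cohomologous to the restriction of `α` to the fibre.
Its entries are the integrals over `[0,1]^k` of the values of `α` at the left invariant vector fields
given by the standard basis of `ℝ^k`. -/
noncomputable def fibreMatrix {k b : ℕ} (N : NilLaw k)
    (α : V k b → V k b →ₗ[ℝ] V k b →ₗ[ℝ] ℝ) (z : R b) : Matrix (Fin k) (Fin k) ℝ :=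
  Matrix.of fun i j => ∫ v in Set.Icc (0 : R k) 1,
    α (v, z) (fderiv ℝ (N.mul v) 0 (Pi.single i 1), 0) (fderiv ℝ (N.mul v) 0 (Pi.single j 1), 0)

/-! ### Conversions -/

section Conv

variable {E : Type} [NormedAddCommGroup E] [NormedSpace ℝ E]
  {Γ : Type} [Group Γ] [MulAction Γ E] {n : ℕ}

theorem fderiv_apply₁ {β : E → E →L[ℝ] ℝ} (h : ContDiff ℝ ∞ β) (x u v : E) :
    fderiv ℝ (fun y => β y v) x u = fderiv ℝ β x u v := by
  have h1 : HasFDerivAt β (fderiv ℝ β x) x := ((h.differentiable (by simp)) x).hasFDerivAt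
  have h2 := (ContinuousLinearMap.apply ℝ ℝ v).hasFDerivAt.comp x h1
  have h3 : (fun y => β y v) = (ContinuousLinearMap.apply ℝ ℝ v) ∘ β := rfl
  rw [h3, h2.fderiv]
  rfl

theorem oneForm_of {η : E → E →L[ℝ] ℝ} (h : Form1 Γ η) :
    OneForm Γ (fun x => (η x : E →ₗ[ℝ] ℝ)) where
  smooth u := h.smooth.clm_apply contDiff_const
  invariant g x u := by
    have h1 := congrArg (fun q => q u) (h.invariant g x)
    simpa [pull1] using h1

variable [FiniteDimensional ℝ E]

theorem form1_toC {η : E → E →ₗ[ℝ] ℝ} (h : OneForm Γ η) :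
    Form1 Γ (fun x => LinearMap.toContinuousLinearMap (η x)) where
  smooth := by
    rw [contDiff_clm_apply_iff]
    intro u
    exact h.smooth u
  invariant g x := by
    refine ContinuousLinearMap.ext fun u => ?_
    exact h.invariant g x u

/-- A primitive for the working definitions gives `ClassIsSymplectic`, and conversely. -/
theorem classIsSymplectic_iff (hG : IsCover E Γ) (B : Module.Basis (Fin n × Fin 2) ℝ E)
    {α : E → E →ₗ[ℝ] E →ₗ[ℝ] ℝ} (hα : ClosedTwoForm Γ α) :
    ClassIsSymplectic Γ B α ↔ ∃ η, Form1 Γ η ∧ ∀ x, 0 < top B (toC (α x) + d1 η x) := by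
  constructor
  · rintro ⟨β, hβ, ⟨η, hη, hd⟩, hp⟩
    have h1 := form1_toC hη
    refine ⟨_, h1, fun x => ?_⟩
    have h2 : toC (α x) + d1 (fun x => LinearMap.toContinuousLinearMap (η x)) x = toC (β x) := by
      refine ContinuousLinearMap.ext fun u => ContinuousLinearMap.ext fun v => ?_
      have h3 := hd x u v
      have h4 := fderiv_apply₁ h1.smooth x u v
      have h5 := fderiv_apply₁ h1.smooth x v u
      rw [_root_.add_apply, _root_.add_apply, toC_apply, toC_apply, h3]
      congr 1
      show fderiv ℝ (fun x => LinearMap.toContinuousLinearMap (η x)) x u v -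
        fderiv ℝ (fun x => LinearMap.toContinuousLinearMap (η x)) x v u = _
      rw [← h4, ← h5]
      rfl
    rw [h2]
    exact hp x
  · rintro ⟨η, hη, hp⟩
    have h1 := hη.d1_form hG
    have h2 : Form2 Γ (fun x => toC (α x) + d1 η x) := (form2_toC hα).add h1
    have h3 : Closed (fun x => toC (α x) + d1 η x) :=
      closed_add (form2_toC hα).toIsForm h1.toIsForm (closed_toC hα) (closed_d1 hη.smooth)
    refine ⟨fun x => toLin (toC (α x) + d1 η x), closedTwoForm_toLin h2 h3,
      ⟨fun x => (η x : E →ₗ[ℝ] ℝ), oneForm_of hη, fun x u v => ?_⟩, hp⟩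
    show α x u v + (fderiv ℝ η x u v - fderiv ℝ η x v u) = _
    rw [← fderiv_apply₁ hη.smooth, ← fderiv_apply₁ hη.smooth]
    rfl

theorem every_iff [MeasureSpace E] (hG : IsCover E Γ) :
    EveryPositiveClassIsSymplectic E Γ ↔ Strong E Γ := by
  constructor
  · intro h n B χ β hχ hβ hc hp
    have h1 := closedTwoForm_toLin hβ hc
    obtain ⟨η, hη, hp'⟩ := (classIsSymplectic_iff hG B h1).1 (h n B χ _ (of_part hχ) h1 hp)
    exact ⟨η, hη, hp'⟩
  · intro h n B χ α hχ hα hp
    rw [classIsSymplectic_iff hG B hα]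
    exact h n B χ _ (part hχ) (form2_toC hα) (closed_toC hα) hp

/-- In dimension at most three the strong form holds. -/
theorem strong_small {b : ℕ} (hb : b < 4) {G : Type} [Group G] [MulAction G (R b)]
    (hG : IsCover (R b) G) (hO : Orient (R b) G) : Strong (R b) G := by
  intro n B χ α hχ hα hc hp
  have h1 : b = n * 2 := by
    have := Module.finrank_eq_card_basis B
    simpa using this
  have h2 : b = 0 ∨ b = 2 := by omega
  rcases h2 with rfl | rfl
  · have hn : n = 0 := by omega
    subst hn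
    refine ⟨0, ⟨contDiff_const, fun g x => by simp [pull1]⟩, fun x => ?_⟩
    simp [top]
  · exact strong_two hG hO n B χ α hχ hα hc hp

end Conv

/-! ### The fibre matrix -/

section Fib

variable {k b : ℕ} (N : NilLaw k)

theorem fibreMatrix_apply {α : V k b → V k b →ₗ[ℝ] V k b →ₗ[ℝ] ℝ}
    (h : ∀ u v, ContDiff ℝ ∞ (fun x => α x u v)) (z : R b) (i j : Fin k) :
    fibreMatrix N α z i j =
      cpart (mean (N.hat2 fun x => toC (α x)) z) (Pi.single i 1) (Pi.single j 1) := by
  have hF : Continuous (N.hat2 fun x => toC (α x)) := (N.contDiff_hat2 (contDiff_toC h)).continuous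
  have h1 := mean_clm (fun _ : R b => ContinuousLinearMap.apply ℝ (V k b →L[ℝ] ℝ)
    (((Pi.single i 1 : R k), (0 : R b)) : V k b)) (N.hat2 fun x => toC (α x)) hF z
  have hF2 : Continuous fun x => ContinuousLinearMap.apply ℝ (V k b →L[ℝ] ℝ)
    (((Pi.single i 1 : R k), (0 : R b)) : V k b) (N.hat2 (fun x => toC (α x)) x) :=
    (ContinuousLinearMap.apply ℝ (V k b →L[ℝ] ℝ)
      (((Pi.single i 1 : R k), (0 : R b)) : V k b)).continuous.comp hF
  have h2 := mean_clm (fun _ : R b => ContinuousLinearMap.apply ℝ ℝ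
    (((Pi.single j 1 : R k), (0 : R b)) : V k b)) _ hF2 z
  rw [h1] at h2
  have h3 : cpart (mean (N.hat2 fun x => toC (α x)) z) (Pi.single i 1) (Pi.single j 1) =
    ContinuousLinearMap.apply ℝ ℝ (((Pi.single j 1 : R k), (0 : R b)) : V k b)
      (ContinuousLinearMap.apply ℝ (V k b →L[ℝ] ℝ) (((Pi.single i 1 : R k), (0 : R b)) : V k b)
      (mean (N.hat2 fun x => toC (α x)) z)) := rfl
  rw [h3, ← h2]
  rfl

theorem finrank_kerC {α : V k b → V k b →ₗ[ℝ] V k b →ₗ[ℝ] ℝ}
    (h : ∀ u v, ContDiff ℝ ∞ (fun x => α x u v)) (z : R b) :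
    (fibreMatrix N α z).rank +
      Module.finrank ℝ (kerC (cpart (mean (N.hat2 fun x => toC (α x)) z))) = k := by
  set c := cpart (mean (N.hat2 fun x => toC (α x)) z) with hc
  have h1 : kerC c = LinearMap.ker (fibreMatrix N α z).transpose.mulVecLin := by
    ext u
    rw [LinearMap.mem_ker]
    have h2 : u ∈ kerC c ↔ c u = 0 := by
      rw [kerC, LinearMap.mem_ker]
      rfl
    rw [h2]
    have h3 : ∀ j, ((fibreMatrix N α z).transpose.mulVecLin u) j = c u (Pi.single j 1) := by
      intro j
      rw [Matrix.mulVecLin_apply, Matrix.mulVec, dotProduct]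
      have h4 : u = ∑ i, u i • (Pi.single i 1 : R k) := by
        ext l
        simp [Finset.sum_apply, Pi.single_apply]
      conv_rhs => rw [h4]
      rw [map_sum, ContinuousLinearMap.sum_apply]
      refine Finset.sum_congr rfl fun i _ => ?_
      rw [Matrix.transpose_apply, fibreMatrix_apply N h, map_smul]
      show _ = u i • c (Pi.single i 1) (Pi.single j 1)
      rw [smul_eq_mul, mul_comm]
    constructor
    · intro h5
      funext j
      rw [h3, h5]
      rfl
    · intro h5
      refine ContinuousLinearMap.ext fun v => ?_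
      have h4 : v = ∑ i, v i • (Pi.single i 1 : R k) := by
        ext l
        simp [Finset.sum_apply, Pi.single_apply]
      rw [h4, map_sum]
      simp only [map_smul, ← h3, h5, Pi.zero_apply, smul_zero, Finset.sum_const_zero]
      simp
  rw [h1]
  have h6 := LinearMap.finrank_range_add_finrank_ker (fibreMatrix N α z).transpose.mulVecLin
  rw [Module.finrank_fin_fun] at h6
  have h7 : Module.finrank ℝ (LinearMap.range (fibreMatrix N α z).transpose.mulVecLin) =
    (fibreMatrix N α z).transpose.rank := rfl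
  rw [h7, Matrix.rank_transpose] at h6
  exact h6

end Fib

end Pool.Agent.W_9986fc_h24.Nice
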