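import Pool.Agent.W_9986fc_h24.Defs

/-!
# Closed orbifolds `E / Γ` with Euclidean universal cover: forms and symplectic forms

Elementary definitions for the statement of the results: `E` is a finite dimensional real vector
space, `Γ` a group which acts on `E` smoothly, properly discontinuously, cocompactly and preserving
the orientation; `E / Γ` is a closed oriented orbifold, and a closed oriented manifold if the action
is free. The differential forms on `E / Γ` are the `Γ`-invariant differential forms on `E`.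
-/

set_option autoImplicit false

open scoped ContDiff
open MeasureTheory

namespace Pool.Agent.W_9986fc_h24.Nice

section

variable (E : Type) [NormedAddCommGroup E] [NormedSpace ℝ E] (Γ : Type) [Group Γ] [MulAction Γ E]

/-- `E / Γ` is a closed oriented orbifold (a closed oriented manifold if `Γ` acts freely): the
action is smooth, properly discontinuous, cocompact and preserves the orientation of `E`. -/
structure ClosedOriented : Prop where
  smooth : ∀ g : Γ, ContDiff ℝ ∞ (fun x : E => g • x)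
  proper : ∀ K : Set E, IsCompact K → {g : Γ | ∃ x ∈ K, g • x ∈ K}.Finite
  cocompact : ∃ K : Set E, IsCompact K ∧ ∀ x, ∃ g : Γ, g • x ∈ K
  oriented : ∀ (g : Γ) (x : E), 0 < (fderiv ℝ (fun x : E => g • x) x).det

variable {E}

/-- `α` is a closed differential 2-form on `E / Γ`: a field of bilinear forms on `E` which is smooth,
alternating, invariant under `Γ`, and closed. -/
structure ClosedTwoForm (α : E → E →ₗ[ℝ] E →ₗ[ℝ] ℝ) : Prop where
  smooth : ∀ u v, ContDiff ℝ ∞ (fun x => α x u v)
  alt : ∀ x u, α x u u = 0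
  invariant : ∀ (g : Γ) (x u v : E), α (g • x) (fderiv ℝ (fun x : E => g • x) x u)
    (fderiv ℝ (fun x : E => g • x) x v) = α x u v
  closed : ∀ x u v w, fderiv ℝ (fun y => α y v w) x u + fderiv ℝ (fun y => α y w u) x v +
    fderiv ℝ (fun y => α y u v) x w = 0

/-- `χ` is a smooth function on `E` with compact support whose translates under `Γ` sum up to one:
the integral over `E / Γ` of an invariant density `F` is `∫ x, χ x * F x`. -/
structure PartitionOfUnity (χ : E → ℝ) : Prop where
  smooth : ContDiff ℝ ∞ χ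
  compact : HasCompactSupport χ
  sum : ∀ x, ∑ᶠ g : Γ, χ (g • x) = 1

end

/-- `2 ^ n` times the value of the `n`-th exterior power of the 2-form `q` at the `2 n` vectors
`e (0, 0), e (0, 1), e (1, 0), e (1, 1), ...`. -/
noncomputable def topPower {E : Type} [NormedAddCommGroup E] [NormedSpace ℝ E] {n : ℕ}
    (e : Fin n × Fin 2 → E) (q : E →ₗ[ℝ] E →ₗ[ℝ] ℝ) : ℝ :=
  ∑ σ : Equiv.Perm (Fin n × Fin 2),
    ((Equiv.Perm.sign σ : ℤ) : ℝ) * ∏ i, q (e (σ (i, 0))) (e (σ (i, 1)))

section

variable {E : Type} [NormedAddCommGroup E] [NormedSpace ℝ E] [MeasureSpace E]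
  (Γ : Type) [Group Γ] [MulAction Γ E]

/-- For the orientation of `E / Γ` given by the ordered basis `B` of `E`, some class `a` in
`H^2(E / Γ; ℝ)` satisfies `a ^ n > 0` (`2 n = dim E`): there is a closed 2-form whose top power has
positive integral over `E / Γ`. -/
def CohomologicallySymplectic {n : ℕ} (B : Module.Basis (Fin n × Fin 2) ℝ E) : Prop :=
  ∃ (χ : E → ℝ) (α : E → E →ₗ[ℝ] E →ₗ[ℝ] ℝ), PartitionOfUnity Γ χ ∧ ClosedTwoForm Γ α ∧
    0 < ∫ x, χ x * topPower B (α x)

omit [MeasureSpace E] in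
/-- `E / Γ` has a symplectic form compatible with the orientation given by the ordered basis `B`. -/
def HasSymplecticForm {n : ℕ} (B : Module.Basis (Fin n × Fin 2) ℝ E) : Prop :=
  ∃ α : E → E →ₗ[ℝ] E →ₗ[ℝ] ℝ, ClosedTwoForm Γ α ∧ ∀ x, 0 < topPower B (α x)

variable (E)

/-- The implication of Q1 (without the hypothesis on almost complex structures) for `E / Γ`, with both
orientations. -/
def CohomologicallySymplecticImpliesSymplectic : Prop :=
  ∀ (n : ℕ) (B : Module.Basis (Fin n × Fin 2) ℝ E),
    CohomologicallySymplectic Γ B → HasSymplecticForm Γ B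

end

/-- The ordered basis `B` of `E₁ × E₂` defines the product of the orientations defined by the bases
`B₁` and `B₂`: if `q₁`, `q₂` are alternating forms with positive top powers, then the direct sum of
`q₁` and `q₂` has a positive top power. -/
def ProductOrientation {E₁ E₂ : Type} [NormedAddCommGroup E₁] [NormedSpace ℝ E₁]
    [NormedAddCommGroup E₂] [NormedSpace ℝ E₂] {n m₁ m₂ : ℕ}
    (B : Module.Basis (Fin n × Fin 2) ℝ (E₁ × E₂)) (B₁ : Module.Basis (Fin m₁ × Fin 2) ℝ E₁)
    (B₂ : Module.Basis (Fin m₂ × Fin 2) ℝ E₂) : Prop :=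
  ∀ (q₁ : E₁ →ₗ[ℝ] E₁ →ₗ[ℝ] ℝ) (q₂ : E₂ →ₗ[ℝ] E₂ →ₗ[ℝ] ℝ), (∀ u, q₁ u u = 0) →
    (∀ u, q₂ u u = 0) → 0 < topPower B₁ q₁ → 0 < topPower B₂ q₂ →
    0 < topPower B (q₁.compl₁₂ (LinearMap.fst ℝ E₁ E₂) (LinearMap.fst ℝ E₁ E₂) +
      q₂.compl₁₂ (LinearMap.snd ℝ E₁ E₂) (LinearMap.snd ℝ E₁ E₂))

end Pool.Agent.W_9986fc_h24.Nice
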