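import Pool.Agent.W_9986fc_h24.Sum

/-!
Integration by parts and unfolding on closed manifolds `E / Γ`.
-/

set_option autoImplicit false
set_option maxSynthPendingDepth 3

open scoped ContDiff
open Pool.Agent.W_9986fc_h15 MeasureTheory

namespace Pool.Agent.W_9986fc_h24

variable {E : Type*} [NormedAddCommGroup E] [NormedSpace ℝ E] [FiniteDimensional ℝ E]
  {Γ : Type*} [Group Γ] [MulAction Γ E]

omit [FiniteDimensional ℝ E] in
theorem smul_hasFDerivAt (hB : IsCover E Γ) (g : Γ) (x : E) :
    HasFDerivAt (fun x : E => g • x) (fderiv ℝ (fun x : E => g • x) x) x :=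
  (((hB.smooth g).differentiable (by simp)) x).hasFDerivAt

omit [FiniteDimensional ℝ E] in
theorem fderiv_smul_mul (hB : IsCover E Γ) (g h : Γ) (x : E) :
    fderiv ℝ (fun x : E => (g * h) • x) x =
      (fderiv ℝ (fun x : E => g • x) (h • x)).comp (fderiv ℝ (fun x : E => h • x) x) := by
  have h1 := (smul_hasFDerivAt hB g (h • x)).comp x (smul_hasFDerivAt hB h x)
  have h2 : ((fun x : E => g • x) ∘ fun x : E => h • x) = fun x : E => (g * h) • x := by
    funext y
    simp [mul_smul]
  rw [h2] at h1
  exact h1.fderiv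

variable [MeasureSpace E] [BorelSpace E] [Measure.IsAddHaarMeasure (volume : Measure E)]

omit Γ in
/-- The integral of a derivative of a function with compact support is zero. -/
theorem integral_fderiv_eq_zero (F : E → ℝ) (hF : ContDiff ℝ ∞ F) (hs : HasCompactSupport F)
    (u : E) : ∫ x, fderiv ℝ F x u = 0 := by
  have hMd : ∀ x, HasLineDerivAt ℝ F (fderiv ℝ F x u) x u := fun x =>
    ((hF.differentiable (by simp)) x).hasFDerivAt.hasLineDerivAt u
  have h3 := integral_bilinear_hasLineDerivAt_right_eq_neg_left_of_integrable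
    (μ := MeasureTheory.volume) (f := fun _ : E => (1 : ℝ)) (f' := fun _ => (0 : ℝ))
    (g := F) (g' := fun x => fderiv ℝ F x u) (v := u)
    (B := ContinuousLinearMap.mul ℝ ℝ) (by simp)
    (by
      simp only [ContinuousLinearMap.mul_apply', one_mul]
      refine Continuous.integrable_of_hasCompactSupport ?_ ?_
      · exact (hF.continuous_fderiv (by simp)).clm_apply continuous_const
      · exact hs.fderiv_apply (𝕜 := ℝ) u)
    (by
      simp only [ContinuousLinearMap.mul_apply', one_mul]
      exact hF.continuous.integrable_of_hasCompactSupport hs)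
    (fun x _ => by
      have := (hasFDerivAt_const (𝕜 := ℝ) (1 : ℝ) x).hasLineDerivAt u
      simpa using this)
    (fun x _ => hMd x)
  simpa using h3

/-- Change of variables `x ↦ g • x`. -/
theorem integral_smul (hB : IsCover E Γ) (g : Γ) (F : E → ℝ) :
    ∫ x, |(fderiv ℝ (fun x : E => g • x) x).det| * F (g • x) = ∫ x, F x := by
  have h := MeasureTheory.integral_image_eq_integral_abs_det_fderiv_smul
    (μ := (MeasureTheory.volume : MeasureTheory.Measure E)) (s := Set.univ)
    (f := fun x : E => g • x) (f' := fun x => fderiv ℝ (fun x : E => g • x) x)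
    MeasurableSet.univ (fun x _ => (smul_hasFDerivAt hB g x).hasFDerivWithinAt)
    ((MulAction.injective g).injOn) F
  rw [Set.image_univ, (MulAction.surjective g).range_eq] at h
  simpa using h.symm

/-- Unfolding: for a partition of unity `χ` and a function `Ψ` with compact support, the integral of
`Ψ` is the integral of `χ` times the sum of the transforms of `Ψ`. -/
theorem unfold (hB : IsCover E Γ) (hO : Orient E Γ) {χ : E → ℝ} (hχ : Part Γ χ) (Ψ : E → ℝ)
    (hΨ : Continuous Ψ) (hs : HasCompactSupport Ψ) :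
    ∫ x, Ψ x =
      ∫ x, χ x * ∑ᶠ g : Γ, (fderiv ℝ (fun x : E => g • x) x).det * Ψ (g • x) := by
  classical
  set K : Set E := tsupport Ψ with hK'
  have hK : IsCompact K := hs
  have hKΨ : ∀ x, Ψ x ≠ 0 → x ∈ K := fun x hx => subset_tsupport Ψ hx
  have hfin : {g : Γ | ∃ z ∈ tsupport χ, g • z ∈ K}.Finite :=
    hB.finite K (tsupport χ) hK hχ.compact
  have hsm : ∀ g : Γ, Continuous fun z : E => g • z := fun g => (hB.smooth g).continuous
  have hdc : ∀ g : Γ, Continuous fun x => (fderiv ℝ (fun x : E => g • x) x).det := fun g =>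
    ContinuousLinearMap.continuous_det.comp ((hB.smooth g).continuous_fderiv (by simp))
  -- the right hand side is a finite sum
  have h1 : ∀ x, χ x * ∑ᶠ g : Γ, (fderiv ℝ (fun x : E => g • x) x).det * Ψ (g • x) =
      ∑ g ∈ hfin.toFinset,
        |(fderiv ℝ (fun x : E => g • x) x).det| * (χ (g⁻¹ • g • x) * Ψ (g • x)) := by
    intro x
    by_cases hz : x ∈ tsupport χ
    · have h2 : ∑ᶠ g : Γ, (fderiv ℝ (fun x : E => g • x) x).det * Ψ (g • x) =
          ∑ g ∈ hfin.toFinset, (fderiv ℝ (fun x : E => g • x) x).det * Ψ (g • x) := by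
        refine finsum_eq_sum_of_support_subset _ fun g hg => ?_
        rw [Function.mem_support] at hg
        have h3 : Ψ (g • x) ≠ 0 := right_ne_zero_of_mul hg
        simp only [Set.Finite.coe_toFinset, Set.mem_ofPred_eq]
        exact ⟨x, hz, hKΨ _ h3⟩
      rw [h2, Finset.mul_sum]
      refine Finset.sum_congr rfl fun g _ => ?_
      rw [inv_smul_smul, abs_of_pos (hO g x)]
      ring
    · have h6 : χ x = 0 := image_eq_zero_of_notMem_tsupport hz
      rw [h6, zero_mul]
      symm
      refine Finset.sum_eq_zero fun g _ => ?_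
      rw [inv_smul_smul, h6]
      ring
  simp_rw [h1]
  have hχc : Continuous χ := hχ.smooth.continuous
  have hFg : ∀ g : Γ, Continuous fun x : E => χ (g⁻¹ • x) * Ψ x := fun g =>
    (hχc.comp (hsm g⁻¹)).mul hΨ
  rw [MeasureTheory.integral_finsetSum]
  · have h7 : ∀ g : Γ, ∫ x,
        |(fderiv ℝ (fun x : E => g • x) x).det| * (χ (g⁻¹ • g • x) * Ψ (g • x)) =
        ∫ x, χ (g⁻¹ • x) * Ψ x := fun g =>
      integral_smul hB g (fun x : E => χ (g⁻¹ • x) * Ψ x)
    simp_rw [h7]
    rw [← MeasureTheory.integral_finsetSum]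
    · congr 1
      funext z
      by_cases hz : z ∈ K
      · have h8 : ∑ g ∈ hfin.toFinset, χ (g⁻¹ • z) = 1 := by
          have h9 : ∑ᶠ g : Γ, χ (g⁻¹ • z) = ∑ᶠ g : Γ, χ (g • z) :=
            finsum_comp_equiv (Equiv.inv Γ) (f := fun g : Γ => χ (g • z))
          rw [← hχ.sum z, ← h9]
          symm
          refine finsum_eq_sum_of_support_subset _ fun g hg => ?_
          rw [Function.mem_support] at hg
          simp only [Set.Finite.coe_toFinset, Set.mem_ofPred_eq]
          exact ⟨g⁻¹ • z, subset_tsupport _ hg, by rwa [smul_inv_smul]⟩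
        rw [← Finset.sum_mul, h8, one_mul]
      · have h11 : Ψ z = 0 := by
          by_contra hne
          exact hz (hKΨ _ hne)
        rw [h11]
        symm
        refine Finset.sum_eq_zero fun g _ => ?_
        rw [mul_zero]
    · intro g _
      exact (hFg g).integrable_of_hasCompactSupport hs.mul_left
  · intro g _
    refine (((hdc g).abs).mul ((hFg g).comp (hsm g))).integrable_of_hasCompactSupport
      ?_
    refine HasCompactSupport.intro hχ.compact fun z hz => ?_
    change |(fderiv ℝ (fun x : E => g • x) z).det| * (χ (g⁻¹ • g • z) * Ψ (g • z)) = 0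
    rw [inv_smul_smul, image_eq_zero_of_notMem_tsupport hz]
    ring

/-- The integral of an invariant density does not depend on the partition of unity. -/
theorem integral_part_eq (hB : IsCover E Γ) (hO : Orient E Γ) {χ χ' : E → ℝ}
    (hχ : Part Γ χ) (hχ' : Part Γ χ') (F : E → ℝ) (hF : Continuous F)
    (hinv : ∀ (g : Γ) x, (fderiv ℝ (fun x : E => g • x) x).det * F (g • x) = F x) :
    ∫ x, χ' x * F x = ∫ x, χ x * F x := by
  have h1 := unfold hB hO hχ (fun x => χ' x * F x) (hχ'.smooth.continuous.mul hF)
    hχ'.compact.mul_right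
  rw [h1]
  congr 1
  funext x
  congr 1
  have h2 : ∀ g : Γ, (fderiv ℝ (fun x : E => g • x) x).det * (χ' (g • x) * F (g • x)) =
      χ' (g • x) * F x := by
    intro g
    rw [← hinv g x]
    ring
  simp only [h2]
  have hfin : (Function.support fun g : Γ => χ' (g • x)).Finite :=
    CSup.finite hB (GSum_aux1 (Γ := Γ) hχ'.compact) x
  rw [← finsum_mul' _ _ hfin, hχ'.sum, one_mul]

end Pool.Agent.W_9986fc_h24
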