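import Pool.Agent.W_9986fc_h24.Defs

/-!
Locally finite sums over the group and partitions of unity.
-/

set_option autoImplicit false
set_option maxSynthPendingDepth 3

open scoped ContDiff
open Pool.Agent.W_9986fc_h15

namespace Pool.Agent.W_9986fc_h24

variable {E : Type*} [NormedAddCommGroup E] [NormedSpace ℝ E] [FiniteDimensional ℝ E]
  {Γ : Type*} [Group Γ] [MulAction Γ E]



/-- Only finitely many `g` map a point of the compact set `C` to the compact set `K`
(`IsCover.proper` for `K ∪ C`). -/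
theorem IsCover.finite (hB : IsCover E Γ) (K C : Set (E)) (hK : IsCompact K) (hC : IsCompact C) :
    {g : Γ | ∃ z ∈ C, g • z ∈ K}.Finite := by
  refine (hB.proper (K ∪ C) (hK.union hC)).subset ?_
  rintro g ⟨z, hz, hgz⟩
  exact ⟨z, Or.inr hz, Or.inl hgz⟩

variable {Y : Type*} [NormedAddCommGroup Y] [NormedSpace ℝ Y]
  {H : Type*} [NormedAddCommGroup H] [NormedSpace ℝ H]

/-- The family `F g`, `g ∈ G`, of functions on `Y` is supported in `g⁻¹ K` for a compact `K`. The map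
`p : Y → E` is the identity or the projection `ℝ^k × E → E`. -/
def CSup (Γ : Type*) [Group Γ] [MulAction Γ E] (p : Y → E) (F : Γ → Y → H) : Prop :=
  ∃ K : Set (E), IsCompact K ∧ ∀ g y, F g y ≠ 0 → g • p y ∈ K

theorem CSup.locallyFinite (hB : IsCover E Γ) {p : Y → E} (hp : Continuous p) {F : Γ → Y → H}
    (hF : CSup Γ p F) : LocallyFinite fun g => Function.support (F g) := by
  obtain ⟨K, hK, hs⟩ := hF
  intro y
  obtain ⟨C, hC, hCn⟩ := exists_compact_mem_nhds (p y)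
  refine ⟨p ⁻¹' C, hp.continuousAt.preimage_mem_nhds hCn, ?_⟩
  refine (hB.finite K C hK hC).subset ?_
  rintro g ⟨y', hy', hy''⟩
  exact ⟨p y', hy'', hs g y' hy'⟩

theorem GSumA_local (hB : IsCover E Γ) {p : Y → E} (hp : Continuous p) {F : Γ → Y → H}
    (hF : CSup Γ p F) (y : Y) : ∃ s : Finset Γ, ∀ᶠ y' in nhds y, ∀ g, F g y' ≠ 0 → g ∈ s := by
  obtain ⟨t, ht, hf⟩ := hF.locallyFinite hB hp y
  refine ⟨hf.toFinset, ?_⟩
  filter_upwards [ht] with y' hy' g hg
  rw [Set.Finite.mem_toFinset]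
  exact ⟨y', hg, hy'⟩

theorem GSumA_eq (hB : IsCover E Γ) {p : Y → E} (hp : Continuous p) {F : Γ → Y → H}
    (hF : CSup Γ p F) (y : Y) : ∃ s : Finset Γ, (∀ᶠ y' in nhds y, ∀ g, F g y' ≠ 0 → g ∈ s) ∧
      (fun y => ∑ᶠ g, F g y) =ᶠ[nhds y] fun y => ∑ g ∈ s, F g y := by
  obtain ⟨s, hs⟩ := GSumA_local hB hp hF y
  refine ⟨s, hs, ?_⟩
  filter_upwards [hs] with y' hy'
  exact finsum_eq_sum_of_support_subset _ (fun g hg => by simpa using hy' g hg)

theorem CSup.finite (hB : IsCover E Γ) {p : Y → E} {F : Γ → Y → H}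
    (hF : CSup Γ p F) (y : Y) : {g | F g y ≠ 0}.Finite := by
  obtain ⟨K, hK, hs⟩ := hF
  refine (hB.finite K {p y} hK isCompact_singleton).subset ?_
  intro g hg
  exact ⟨p y, rfl, hs g y hg⟩

theorem CSup.contDiff (hB : IsCover E Γ) {p : Y → E} (hp : Continuous p) {F : Γ → Y → H}
    (hF : CSup Γ p F) (hd : ∀ g, ContDiff ℝ ∞ (F g)) : ContDiff ℝ ∞ fun y => ∑ᶠ g, F g y := by
  rw [contDiff_iff_contDiffAt]
  intro y
  obtain ⟨s, -, hs⟩ := GSumA_eq hB hp hF y
  refine ContDiffAt.congr_of_eventuallyEq ?_ hs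
  exact ContDiffAt.sum fun g _ => (hd g).contDiffAt

theorem CSup.fderiv_sum (hB : IsCover E Γ) {p : Y → E} (hp : Continuous p) {F : Γ → Y → H}
    (hF : CSup Γ p F) (hd : ∀ g, ContDiff ℝ ∞ (F g)) (y : Y) :
    fderiv ℝ (fun y => ∑ᶠ g, F g y) y = ∑ᶠ g, fderiv ℝ (F g) y := by
  obtain ⟨s, h0, hs⟩ := GSumA_eq hB hp hF y
  rw [hs.fderiv_eq, fderiv_fun_sum fun g _ => ((hd g).differentiable (by simp)).differentiableAt]
  symm
  refine finsum_eq_sum_of_support_subset _ fun g hg => ?_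
  by_contra hgs
  apply hg
  have : F g =ᶠ[nhds y] fun _ => 0 := by
    filter_upwards [h0] with y' hy'
    by_contra h
    exact hgs (by simpa using hy' g h)
  change fderiv ℝ (F g) y = 0
  rw [this.fderiv_eq]
  simp

/-- The derivatives have the same support property (outside of the closed set `p⁻¹ (g⁻¹ K)` the
function `F g` vanishes on an open set). -/
theorem CSup.sup_fderiv (hB : IsCover E Γ) {p : Y → E} (hp : Continuous p) {F : Γ → Y → H}
    (hF : CSup Γ p F) : CSup Γ p fun g => fderiv ℝ (F g) := by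
  obtain ⟨K, hK, hs⟩ := hF
  refine ⟨K, hK, fun g y hy => ?_⟩
  by_contra hn
  apply hy
  have hcont : Continuous fun y => g • p y := (hB.smooth g).continuous.comp hp
  have hopen : {y | g • p y ∉ K} ∈ nhds y :=
    (hK.isClosed.isOpen_compl.preimage hcont).mem_nhds hn
  have : F g =ᶠ[nhds y] fun _ => 0 := by
    filter_upwards [hopen] with y' hy'
    by_contra h
    exact hy' (hs g y' h)
  change fderiv ℝ (F g) y = 0
  rw [this.fderiv_eq]
  simp

/-- Sums commute with linear maps. -/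
theorem CSup.clm (hB : IsCover E Γ) {p : Y → E} {F : Γ → Y → H} (hF : CSup Γ p F)
    {H' : Type*} [AddCommGroup H'] [Module ℝ H'] (T : H →ₗ[ℝ] H') (y : Y) :
    T (∑ᶠ g, F g y) = ∑ᶠ g, T (F g y) :=
  T.toAddMonoidHom.map_finsum (hF.finite hB y)

theorem CSup.add (hB : IsCover E Γ) {p : Y → E} {F F' : Γ → Y → H} (hF : CSup Γ p F)
    (hF' : CSup Γ p F') (y : Y) : ∑ᶠ g, (F g y + F' g y) = (∑ᶠ g, F g y) + ∑ᶠ g, F' g y :=
  finsum_add_distrib (hF.finite hB y) (hF'.finite hB y)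

/-- Right translation of the index. -/
theorem finsum_mul_right {M : Type*} [AddCommMonoid M] (F : Γ → M) (h : Γ) :
    ∑ᶠ g, F (g * h) = ∑ᶠ g, F g :=
  finsum_comp_equiv (Equiv.mulRight h)

/-- A cut-off function gives a family with the support property. -/
theorem csup_of_cutoff {χ : E → ℝ} (hχ : HasCompactSupport χ) {p : Y → E} {F : Γ → Y → H}
    (hF : ∀ g y, χ (g • p y) = 0 → F g y = 0) : CSup Γ p F := by
  refine ⟨tsupport χ, hχ, fun g y hy => subset_tsupport χ ?_⟩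
  intro h
  exact hy (hF g y h)




theorem GSum_aux1 {χ : E → ℝ} (hχ : HasCompactSupport χ) :
    CSup Γ (fun z : E => z) (fun (g : Γ) (z : E) => χ (g • z)) :=
  csup_of_cutoff hχ (fun _ _ h => h)

/-- The derivative of a partition of unity is zero. -/
theorem Part.fderiv_sum (hB : IsCover E Γ) {χ : E → ℝ} (hχ : Part Γ χ) (z : E) :
    ∑ᶠ g : Γ, fderiv ℝ (fun z : E => χ (g • z)) z = 0 := by
  have h1 := CSup.fderiv_sum hB (continuous_id' : Continuous fun z : E => z)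
    (GSum_aux1 (Γ := Γ) hχ.compact) (fun g => hχ.smooth.comp (hB.smooth g)) z
  rw [← h1]
  have h2 : (fun y : E => ∑ᶠ g : Γ, χ (g • y)) = fun _ => (1 : ℝ) := funext hχ.sum
  rw [h2]
  exact fderiv_const_apply _

/-- Positive partition: for later use, there is a smooth `ψ ≥ 0` with compact support and
`∑ᶠ g, ψ (g • z) > 0` everywhere. -/
theorem GSum_aux2 (hB : IsCover E Γ) : ∃ ψ : E → ℝ, ContDiff ℝ ∞ ψ ∧ HasCompactSupport ψ ∧
    (∀ z, 0 ≤ ψ z) ∧ ∀ z, ∃ g : Γ, 0 < ψ (g • z) := by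
  obtain ⟨K, hK, hcov⟩ := hB.cocompact
  obtain ⟨r, hr0, hr⟩ : ∃ r : ℝ, 0 < r ∧ K ⊆ Metric.closedBall 0 r := by
    obtain ⟨r, hr⟩ := hK.isBounded.subset_closedBall (0 : E)
    exact ⟨max r 1, lt_of_lt_of_le one_pos (le_max_right _ _),
      hr.trans (Metric.closedBall_subset_closedBall (le_max_left _ _))⟩
  let f : ContDiffBump (0 : E) := ⟨r, r + 1, hr0, lt_add_one r⟩
  refine ⟨f, f.contDiff, f.hasCompactSupport, fun z => f.nonneg, fun z => ?_⟩
  obtain ⟨g, hg⟩ := hcov z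
  refine ⟨g, ?_⟩
  rw [f.one_of_mem_closedBall (hr hg)]
  exact one_pos

/-- Partitions of unity exist. Proof: let `ψ ≥ 0` be a smooth function with compact support which is
positive on the compact set of `IsCover.cocompact`; divide it by `∑ᶠ g, ψ (g • z) > 0`. -/
theorem exists_part (hB : IsCover E Γ) : ∃ χ : E → ℝ, Part Γ χ ∧ ∀ z, 0 ≤ χ z := by
  obtain ⟨ψ, hs, hc, h0, hpos⟩ := GSum_aux2 (Γ := Γ) hB
  have hC := GSum_aux1 (Γ := Γ) hc
  set S : E → ℝ := fun z => ∑ᶠ g : Γ, ψ (g • z) with hS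
  have hSs : ContDiff ℝ ∞ S := CSup.contDiff hB continuous_id' hC
    (fun g => hs.comp (hB.smooth g))
  have hfin : ∀ z, (Function.support fun g : Γ => ψ (g • z)).Finite := fun z =>
    CSup.finite hB hC z
  have hSpos : ∀ z, 0 < S z := by
    intro z
    obtain ⟨g, hg⟩ := hpos z
    rw [hS]
    simp only
    rw [finsum_eq_sum _ (hfin z)]
    refine Finset.sum_pos' (fun i _ => h0 _) ⟨g, ?_, hg⟩
    rw [Set.Finite.mem_toFinset, Function.mem_support]
    exact hg.ne'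
  have hSinv : ∀ (g : Γ) z, S (g • z) = S z := by
    intro g z
    rw [hS]
    simp only [smul_smul]
    exact finsum_mul_right (fun h : Γ => ψ (h • z)) g
  refine ⟨fun z => ψ z * (S z)⁻¹, ⟨hs.mul (hSs.inv fun z => (hSpos z).ne'), hc.mul_right, ?_⟩,
    fun z => mul_nonneg (h0 z) (inv_nonneg.2 (hSpos z).le)⟩
  intro z
  simp only [hSinv]
  rw [← finsum_mul' (fun g : Γ => ψ (g • z)) _ (hfin z)]
  exact mul_inv_cancel₀ (hSpos z).ne'

/-- Positive partition: for later use, there is a smooth `ψ ≥ 0` with compact support and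
`∑ᶠ g, ψ (g • z) > 0` everywhere. -/
theorem exists_cutoff (hB : IsCover E Γ) : ∃ ψ : E → ℝ, ContDiff ℝ ∞ ψ ∧ HasCompactSupport ψ ∧
    (∀ z, 0 ≤ ψ z) ∧ ∀ z, ∃ g : Γ, 0 < ψ (g • z) :=
  GSum_aux2 hB


end Pool.Agent.W_9986fc_h24
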